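import Pool.Agent.PW.StmtsA

set_option autoImplicit false

/-!
# Squad PW, row LOC: the filtration at a point
-/

namespace Pool.Agent.PW.H19

open MvPolynomial Pool.Agent.PW
open Pool.Agent.RS (FF io io_injective)

/-! ## Commutative algebra -/

/-- derivations over the integers -/
abbrev DZ (S : Type) [CommRing S] : Type := Derivation ℤ S S

/-- restriction of scalars to the integers -/
def toZ {D S : Type} [CommRing D] [CommRing S] [Algebra D S] (d : Derivation D S S) : DZ S :=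
  d.restrictScalars ℤ

theorem toZ_ap {D S : Type} [CommRing D] [CommRing S] [Algebra D S] (d : Derivation D S S)
    (x : S) : toZ d x = d x := rfl

theorem sum_ap {S : Type} [CommRing S] {ι : Type} (t : Finset ι) (g : ι → DZ S)
    (f : S) : (∑ b ∈ t, g b : DZ S) f = ∑ b ∈ t, g b f := by
  classical
  induction t using Finset.induction_on with
  | empty => simp
  | insert a t ha ih => rw [Finset.sum_insert ha, Finset.sum_insert ha, Derivation.add_apply, ih]

/-- linear combination of derivations -/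
def cmb {D S : Type} [CommRing D] [CommRing S] [Algebra D S] {ρ : ℕ} (n : Fin ρ → S)
    (d : Fin ρ → Derivation D S S) : DZ S := ∑ b, n b • toZ (d b)

theorem cmb_ap {D S : Type} [CommRing D] [CommRing S] [Algebra D S] {ρ : ℕ} (n : Fin ρ → S)
    (d : Fin ρ → Derivation D S S) (x : S) : cmb n d x = ∑ b, n b * d b x := by
  unfold cmb
  rw [sum_ap]
  rfl

section comm

variable {S : Type} [CommRing S]

/-- a derivation maps `I ^ (j + 1)` to `I ^ j` -/
theorem der_pow (δ : DZ S) (I : Ideal S) (j : ℕ) :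
    ∀ f ∈ I ^ (j + 1), δ f ∈ I ^ j := by
  induction j with
  | zero =>
    intro f _
    rw [pow_zero, Ideal.one_eq_top]
    exact Submodule.mem_top
  | succ j ih =>
    intro f hf
    rw [pow_succ] at hf
    refine Submodule.mul_induction_on hf ?_ ?_
    · intro g hg h hh
      rw [Derivation.leibniz, smul_eq_mul, smul_eq_mul]
      refine Ideal.add_mem _ (Ideal.mul_mem_right _ _ hg) ?_
      rw [pow_succ, mul_comm h]
      exact Ideal.mul_mem_mul (ih g hg) hh
    · intro a b ha hb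
      rw [map_add]
      exact Ideal.add_mem _ ha hb

/-- the Euler operator on `S` -/
def Nf {ρ : ℕ} (Y : Fin ρ → S) (δ : Fin ρ → DZ S) (f : S) : S := ∑ a, Y a * δ a f

theorem nf_mul {ρ : ℕ} (Y : Fin ρ → S) (δ : Fin ρ → DZ S) (f g : S) :
    Nf Y δ (f * g) = f * Nf Y δ g + g * Nf Y δ f := by
  unfold Nf
  rw [Finset.mul_sum, Finset.mul_sum, ← Finset.sum_add_distrib]
  refine Finset.sum_congr rfl fun a _ => ?_
  rw [Derivation.leibniz, smul_eq_mul, smul_eq_mul]
  ring

theorem nf_mem {ρ : ℕ} (Y : Fin ρ → S) (δ : Fin ρ → DZ S) (f : S) :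
    Nf Y δ f ∈ Ideal.span (Set.range Y) := by
  unfold Nf
  exact Ideal.sum_mem _ fun a _ =>
    Ideal.mul_mem_right _ _ (Ideal.subset_span ⟨a, rfl⟩)

/-- The main computation. -/
theorem key (eulS : EulStmt) {ρ : ℕ} (Y : Fin ρ → S) (Δ : S) (δ : Fin ρ → DZ S)
    (hδ : ∀ a a', δ a (Y a') = if a = a' then Δ else 0) (s a0 b0 : S) (j : ℕ)
    (hf : s * a0 ∈ Ideal.span (Set.range Y) ^ j) :
    s ^ 2 * ((j : S) * Δ * b0 * a0 - b0 * Nf Y δ a0 + a0 * Nf Y δ b0) ∈
      Ideal.span (Set.range Y) ^ (j + 1) := by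
  have h1 := eulS S ρ Y Δ δ hδ j (s * a0) hf
  have h2 : Nf Y δ s * (s * a0) ∈ Ideal.span (Set.range Y) ^ (j + 1) := by
    rw [pow_succ, mul_comm (Nf Y δ s)]
    exact Ideal.mul_mem_mul hf (nf_mem Y δ s)
  have h3 : (s * a0) * Nf Y δ b0 ∈ Ideal.span (Set.range Y) ^ (j + 1) := by
    rw [pow_succ]
    exact Ideal.mul_mem_mul hf (nf_mem Y δ b0)
  have h4 := nf_mul Y δ s a0
  have h5 : Nf Y δ (s * a0) - (j : S) * Δ * (s * a0) ∈ Ideal.span (Set.range Y) ^ (j + 1) := h1
  have e : s ^ 2 * ((j : S) * Δ * b0 * a0 - b0 * Nf Y δ a0 + a0 * Nf Y δ b0) =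
      (-(b0 * s)) * (Nf Y δ (s * a0) - (j : S) * Δ * (s * a0)) + b0 * (Nf Y δ s * (s * a0)) +
        s * ((s * a0) * Nf Y δ b0) := by
    rw [h4]
    ring
  rw [e]
  exact Ideal.add_mem _ (Ideal.add_mem _ (Ideal.mul_mem_left _ _ h5) (Ideal.mul_mem_left _ _ h2))
    (Ideal.mul_mem_left _ _ h3)

end comm

/-! ## The filtration -/

section fil

variable {E S Om : Type} [Field E] [CommRing S] [Field Om] (φ : MvPolynomial ℕ E →+* S)
  (e : S →+* Om) (I : Ideal S)

/-- the filtration -/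
def Fl (j : ℕ) (w : FF E) : Prop :=
  ∃ a b : MvPolynomial ℕ E, w = io E a / io E b ∧ e (φ b) ≠ 0 ∧ ∃ s : S, e s ≠ 0 ∧
    s * φ a ∈ I ^ j

theorem io_ne {b : MvPolynomial ℕ E} (h : e (φ b) ≠ 0) : io E b ≠ 0 := by
  intro h0
  have hb : b = 0 := by
    apply io_injective
    rw [h0, map_zero]
  apply h
  rw [hb, map_zero, map_zero]

theorem fl_of {j : ℕ} {a b : MvPolynomial ℕ E} (hb : e (φ b) ≠ 0) {s : S} (hs : e s ≠ 0)
    (h : s * φ a ∈ I ^ j) : Fl φ e I j (io E a / io E b) :=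
  ⟨a, b, rfl, hb, s, hs, h⟩

theorem fl_zero (j : ℕ) : Fl φ e I j 0 := by
  refine ⟨0, 1, ?_, ?_, 1, ?_, ?_⟩
  · rw [map_zero, zero_div]
  · rw [map_one, map_one]
    exact one_ne_zero
  · rw [map_one]
    exact one_ne_zero
  · rw [map_zero, mul_zero]
    exact Ideal.zero_mem _

theorem fl_add (j : ℕ) (v w : FF E) (hv : Fl φ e I j v) (hw : Fl φ e I j w) :
    Fl φ e I j (v + w) := by
  obtain ⟨a, b, rfl, hb, s, hs, h⟩ := hv
  obtain ⟨a', b', rfl, hb', s', hs', h'⟩ := hw
  refine ⟨a * b' + a' * b, b * b', ?_, ?_, s * s', ?_, ?_⟩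
  · rw [div_add_div _ _ (io_ne φ e hb) (io_ne φ e hb'), map_add, map_mul, map_mul, map_mul]
    ring
  · rw [map_mul, map_mul]
    exact mul_ne_zero hb hb'
  · rw [map_mul]
    exact mul_ne_zero hs hs'
  · have e1 : s * s' * φ (a * b' + a' * b) =
        (s' * φ b') * (s * φ a) + (s * φ b) * (s' * φ a') := by
      rw [map_add, map_mul, map_mul]
      ring
    rw [e1]
    exact Ideal.add_mem _ (Ideal.mul_mem_left _ _ h) (Ideal.mul_mem_left _ _ h')

theorem fl_mul (j l : ℕ) (v w : FF E) (hv : Fl φ e I j v) (hw : Fl φ e I l w) :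
    Fl φ e I (j + l) (v * w) := by
  obtain ⟨a, b, rfl, hb, s, hs, h⟩ := hv
  obtain ⟨a', b', rfl, hb', s', hs', h'⟩ := hw
  refine ⟨a * a', b * b', ?_, ?_, s * s', ?_, ?_⟩
  · rw [div_mul_div_comm, map_mul, map_mul]
  · rw [map_mul, map_mul]
    exact mul_ne_zero hb hb'
  · rw [map_mul]
    exact mul_ne_zero hs hs'
  · have e1 : s * s' * φ (a * a') = (s * φ a) * (s' * φ a') := by
      rw [map_mul]
      ring
    rw [e1, pow_add]
    exact Ideal.mul_mem_mul h h'

theorem fl_mono (j : ℕ) (w : FF E) (hw : Fl φ e I (j + 1) w) : Fl φ e I j w := by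
  obtain ⟨a, b, rfl, hb, s, hs, h⟩ := hw
  exact ⟨a, b, rfl, hb, s, hs, Ideal.pow_le_pow_right (Nat.le_succ j) h⟩

theorem fl_poly (a : MvPolynomial ℕ E) : Fl φ e I 0 (io E a) := by
  refine ⟨a, 1, ?_, ?_, 1, ?_, ?_⟩
  · rw [map_one, div_one]
  · rw [map_one, map_one]
    exact one_ne_zero
  · rw [map_one]
    exact one_ne_zero
  · rw [pow_zero, Ideal.one_eq_top]
    exact Submodule.mem_top

theorem fl_mem (a : MvPolynomial ℕ E) (ha : φ a ∈ I) : Fl φ e I 1 (io E a) := by
  refine ⟨a, 1, ?_, ?_, 1, ?_, ?_⟩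
  · rw [map_one, div_one]
  · rw [map_one, map_one]
    exact one_ne_zero
  · rw [map_one]
    exact one_ne_zero
  · rw [pow_one, one_mul]
    exact ha

theorem fl_inv (h : MvPolynomial ℕ E) (hh : e (φ h) ≠ 0) : Fl φ e I 0 (io E h)⁻¹ := by
  refine ⟨1, h, ?_, hh, 1, ?_, ?_⟩
  · rw [map_one, one_div]
  · rw [map_one]
    exact one_ne_zero
  · rw [pow_zero, Ideal.one_eq_top]
    exact Submodule.mem_top

theorem fl_proper (hI : ∀ x ∈ I, e x = 0) : ¬ Fl φ e I 1 1 := by
  rintro ⟨a, b, h1, hb, s, hs, h⟩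
  have hb0 := io_ne φ e hb
  have hab : a = b := by
    apply io_injective
    rw [eq_div_iff hb0, one_mul] at h1
    exact h1.symm
  rw [pow_one] at h
  have h2 := hI _ h
  rw [map_mul, hab] at h2
  exact mul_ne_zero hs hb h2

end fil

/-! ## Derivations of the polynomial ring -/

section der

variable {E D : Type} [Field E] [CommRing D] [Algebra E D]

theorem ph_pderiv (ζ : ℕ → D) (J : Finset ℕ) (i : ℕ) (hi : i ∈ J) (f : MvPolynomial ℕ E) :
    Ph ζ J (pderiv i f) = pderiv i (Ph ζ J f) := by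
  induction f using MvPolynomial.induction_on with
  | C a =>
    have h1 : Ph ζ J (C a) = C (algebraMap E D a) := by
      unfold Ph
      rw [aeval_C]
      rfl
    rw [pderiv_C, map_zero, h1, pderiv_C]
  | add p q hp hq => rw [map_add, map_add, hp, hq, map_add, map_add]
  | mul_X p n hp =>
    have h1 : Ph ζ J (X n : MvPolynomial ℕ E) = if n ∈ J then X n else C (ζ n) := by
      unfold Ph
      rw [aeval_X]
    have h2 : Ph ζ J (pderiv i (X n : MvPolynomial ℕ E)) =
        pderiv i (Ph ζ J (X n : MvPolynomial ℕ E)) := by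
      rw [h1]
      by_cases hn : n ∈ J
      · rw [if_pos hn, pderiv_X, pderiv_X]
        by_cases hin : i = n
        · subst hin
          rw [Pi.single_eq_same, Pi.single_eq_same, map_one]
        · rw [Pi.single_eq_of_ne (fun h => hin h.symm), Pi.single_eq_of_ne (fun h => hin h.symm),
            map_zero]
      · rw [if_neg hn, pderiv_C, pderiv_X]
        have hin : i ≠ n := fun h => hn (h ▸ hi)
        rw [Pi.single_eq_of_ne (fun h => hin h.symm), map_zero]
    rw [Derivation.leibniz, map_mul, Derivation.leibniz, map_add, smul_eq_mul, smul_eq_mul,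
      smul_eq_mul, smul_eq_mul, map_mul, map_mul, hp, h2]

/-- the derivation `∑ b, φ(n b) ∂_(z b)` -/
noncomputable def dl (ζ : ℕ → D) (J : Finset ℕ) {ρ : ℕ} (n : Fin ρ → MvPolynomial ℕ E)
    (z : Fin ρ → ℕ) : DZ (MvPolynomial ℕ D) :=
  cmb (fun b => Ph ζ J (n b)) fun b => pderiv (z b)

theorem dl_ap (ζ : ℕ → D) (J : Finset ℕ) {ρ : ℕ} (n : Fin ρ → MvPolynomial ℕ E)
    (z : Fin ρ → ℕ) (f : MvPolynomial ℕ D) :
    dl ζ J n z f = ∑ b, Ph ζ J (n b) * pderiv (z b) f := cmb_ap _ _ _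

/-- the Euler operator on `MvPolynomial ℕ E` -/
noncomputable def NN {ρ : ℕ} (y : Fin ρ → MvPolynomial ℕ E) (n : Fin ρ → Fin ρ → MvPolynomial ℕ E)
    (z : Fin ρ → ℕ) (f : MvPolynomial ℕ E) : MvPolynomial ℕ E :=
  ∑ a, y a * ∑ b, n a b * pderiv (z b) f

theorem ph_NN (ζ : ℕ → D) (J : Finset ℕ) {ρ : ℕ} (y : Fin ρ → MvPolynomial ℕ E)
    (n : Fin ρ → Fin ρ → MvPolynomial ℕ E) (z : Fin ρ → ℕ) (hz : ∀ b, z b ∈ J)
    (f : MvPolynomial ℕ E) : Ph ζ J (NN y n z f) =
      Nf (fun a => Ph ζ J (y a)) (fun a => dl ζ J (n a) z) (Ph ζ J f) := by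
  unfold NN Nf
  rw [map_sum]
  refine Finset.sum_congr rfl fun a _ => ?_
  change _ = Ph ζ J (y a) * dl ζ J (n a) z (Ph ζ J f)
  rw [map_mul, map_sum, dl_ap]
  congr 1
  refine Finset.sum_congr rfl fun b _ => ?_
  rw [map_mul, ph_pderiv ζ J (z b) (hz b)]

end der

/-! ## The field of fractions -/

section field

variable {E : Type} [Field E]

theorem dd_div (der : DerStmt) (i : ℕ) (a b : MvPolynomial ℕ E) (hb : io E b ≠ 0) :
    dd i (io E a / io E b) = io E (b * pderiv i a - a * pderiv i b) / io E (b ^ 2) := by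
  obtain ⟨h1, -, h3⟩ := der E
  rw [h3 _ _ _ hb, h1, h1, map_sub, map_mul, map_mul, map_pow]

theorem del_ap {ρ : ℕ} (y : Fin ρ → MvPolynomial ℕ E) (z : Fin ρ → ℕ) (a : Fin ρ) (w : FF E) :
    del y z a w = ∑ b, (VV y z)⁻¹ a b * dd (z b) w := by
  unfold del
  have h : ∀ t : Finset (Fin ρ), (∑ b ∈ t, (VV y z)⁻¹ a b • dd (E := E) (z b)) w =
      ∑ b ∈ t, (VV y z)⁻¹ a b * dd (z b) w := by
    intro t
    classical
    induction t using Finset.induction_on with
    | empty => simp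
    | insert c t hc ih =>
      rw [Finset.sum_insert hc, Finset.sum_insert hc, Derivation.add_apply, ih]
      rfl
  exact h _

theorem nn_comb {ρ : ℕ} (y : Fin ρ → MvPolynomial ℕ E) (n : Fin ρ → Fin ρ → MvPolynomial ℕ E)
    (z : Fin ρ → ℕ) (a0 b0 : MvPolynomial ℕ E) : b0 * NN y n z a0 - a0 * NN y n z b0 =
      ∑ a, y a * ∑ b, n a b * (b0 * pderiv (z b) a0 - a0 * pderiv (z b) b0) := by
  unfold NN
  rw [Finset.mul_sum, Finset.mul_sum, ← Finset.sum_sub_distrib]
  refine Finset.sum_congr rfl fun a _ => ?_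
  rw [Finset.mul_sum, Finset.mul_sum, Finset.mul_sum, Finset.mul_sum, Finset.mul_sum,
    ← Finset.sum_sub_distrib]
  refine Finset.sum_congr rfl fun b _ => ?_
  ring

theorem sum_del (der : DerStmt) {ρ : ℕ} (y : Fin ρ → MvPolynomial ℕ E) (z : Fin ρ → ℕ)
    (n : Fin ρ → Fin ρ → MvPolynomial ℕ E) (Δ : MvPolynomial ℕ E)
    (hn : ∀ a b, (VV y z)⁻¹ a b = io E (n a b) / io E Δ) (a0 b0 : MvPolynomial ℕ E)
    (hb : io E b0 ≠ 0) : ∑ a, io E (y a) * del y z a (io E a0 / io E b0) =
      io E (b0 * NN y n z a0 - a0 * NN y n z b0) / (io E Δ * io E (b0 ^ 2)) := by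
  rw [nn_comb, map_sum, Finset.sum_div]
  refine Finset.sum_congr rfl fun a _ => ?_
  rw [del_ap, map_mul, map_sum, mul_div_assoc, Finset.sum_div]
  congr 1
  refine Finset.sum_congr rfl fun b _ => ?_
  rw [hn, dd_div der _ _ _ hb, map_mul, div_mul_div_comm]

theorem eul_div (der : DerStmt) {ρ : ℕ} (y : Fin ρ → MvPolynomial ℕ E) (z : Fin ρ → ℕ)
    (n : Fin ρ → Fin ρ → MvPolynomial ℕ E) (Δ : MvPolynomial ℕ E) (hΔ : io E Δ ≠ 0)
    (hn : ∀ a b, (VV y z)⁻¹ a b = io E (n a b) / io E Δ) (j : ℕ) (hj : (j : FF E) ≠ 0)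
    (a0 b0 : MvPolynomial ℕ E) (hb : io E b0 ≠ 0) : eul y z j (io E a0 / io E b0) =
      io E ((j : MvPolynomial ℕ E) * Δ * b0 * a0 - b0 * NN y n z a0 + a0 * NN y n z b0) /
        io E ((j : MvPolynomial ℕ E) * Δ * b0 ^ 2) := by
  unfold eul
  rw [sum_del der y z n Δ hn a0 b0 hb]
  have e1 : io E (b0 * NN y n z a0 - a0 * NN y n z b0) =
      io E b0 * io E (NN y n z a0) - io E a0 * io E (NN y n z b0) := by
    rw [map_sub, map_mul, map_mul]
  rw [e1]
  have e2 : io E ((j : MvPolynomial ℕ E) * Δ * b0 * a0 - b0 * NN y n z a0 + a0 * NN y n z b0) =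
      (j : FF E) * io E Δ * io E b0 * io E a0 - io E b0 * io E (NN y n z a0) +
        io E a0 * io E (NN y n z b0) := by
    rw [map_add, map_sub, map_mul, map_mul, map_mul, map_mul, map_mul, map_natCast]
  rw [e2, map_mul, map_mul, map_pow, map_natCast]
  field_simp
  ring

end field

/-! ## The row -/

/-- Row LOC. -/
theorem loc (eulS : EulStmt) (der : DerStmt) (dlt : DltStmt) : LocStmt := by
  intro E D _ _ _ _ _ ρ c0 k y ζ G J1 J Om _ e hUG hGJ hJJ he hJ hK hM
  let φ : MvPolynomial ℕ E →+* MvPolynomial ℕ D :=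
    (Ph ζ J : MvPolynomial ℕ E →ₐ[E] MvPolynomial ℕ D).toRingHom
  have hφ : ∀ a, φ a = Ph ζ J a := fun a => rfl
  let I : Ideal (MvPolynomial ℕ D) := Ideal.span (Set.range fun a => Ph ζ J (y a))
  have hI : ∀ x ∈ I, e x = 0 := by
    intro x hx
    have h1 : I ≤ RingHom.ker e := by
      refine Ideal.span_le.2 ?_
      rintro _ ⟨a, rfl⟩
      exact he a
    exact h1 hx
  -- the derivations
  have hder : ∀ i ∈ J1, ∀ (j : ℕ) (a b : MvPolynomial ℕ E) (s : MvPolynomial ℕ D),
      s * φ a ∈ I ^ (j + 1) → s ^ 2 * φ (b * pderiv i a - a * pderiv i b) ∈ I ^ j := by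
    intro i hi j a b s h
    let δ : DZ (MvPolynomial ℕ D) :=
      toZ (pderiv i : Derivation D (MvPolynomial ℕ D) (MvPolynomial ℕ D))
    have hδ : ∀ f, δ f = pderiv i f := fun f => rfl
    have h1 : δ (s * φ a) ∈ I ^ j := der_pow δ I j _ h
    have h2 : s * φ a ∈ I ^ j := Ideal.pow_le_pow_right (Nat.le_succ j) h
    have h3 : δ (s * φ a) = s * δ (φ a) + φ a * δ s := by
      rw [Derivation.leibniz, smul_eq_mul, smul_eq_mul]
    have h4 : φ (pderiv i a) = δ (φ a) := by
      rw [hφ, hφ, hδ, ph_pderiv ζ J i (hJJ hi)]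
    have e1 : s ^ 2 * φ (b * pderiv i a - a * pderiv i b) =
        (φ b * s) * δ (s * φ a) - (φ b * δ s) * (s * φ a) -
          (s * φ (pderiv i b)) * (s * φ a) := by
      rw [map_sub, map_mul, map_mul, h4, h3]
      ring
    rw [e1]
    exact Ideal.sub_mem _ (Ideal.sub_mem _ (Ideal.mul_mem_left _ _ h1)
      (Ideal.mul_mem_left _ _ h2)) (Ideal.mul_mem_left _ _ h2)
  refine ⟨Fl φ e I,
    { zero := fl_zero φ e I
      add := fl_add φ e I
      mul := fl_mul φ e I
      mono := fl_mono φ e I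
      poly := fl_poly φ e I
      mem := fun a => fl_mem φ e I _ (Ideal.subset_span ⟨a, rfl⟩)
      der0 := ?_
      der := ?_
      eul := ?_
      unitJ := fun h h0 hv => fl_inv φ e I h (hJ h h0 hv)
      unitK := fun h h0 hv => fl_inv φ e I h (hK h h0 hv)
      unitM := fun g h0 hv => fl_inv φ e I g (hM g h0 hv)
      proper := fl_proper φ e I hI }, ?_⟩
  · intro i hi w hw
    obtain ⟨a, b, rfl, hb, s, hs, h⟩ := hw
    rw [dd_div der i a b (io_ne φ e hb)]
    refine fl_of φ e I (s := 1) ?_ ?_ ?_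
    · rw [map_pow, map_pow]
      exact pow_ne_zero _ hb
    · rw [map_one]
      exact one_ne_zero
    · rw [pow_zero, Ideal.one_eq_top]
      exact Submodule.mem_top
  · intro i hi j w hw
    obtain ⟨a, b, rfl, hb, s, hs, h⟩ := hw
    rw [dd_div der i a b (io_ne φ e hb)]
    refine fl_of φ e I (s := s ^ 2) ?_ ?_ (hder i hi j a b s h)
    · rw [map_pow, map_pow]
      exact pow_ne_zero _ hb
    · rw [map_pow]
      exact pow_ne_zero _ hs
  · intro z hpiv hz j w hj hw
    obtain ⟨a0, b0, rfl, hb, s, hs, h⟩ := hw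
    obtain ⟨hd1, ⟨Δ, hΔ0, hΔv, hn⟩, -⟩ := dlt E ρ y G z hUG hpiv
    choose n hnv hn using hn
    have hΔe : e (φ Δ) ≠ 0 := by
      refine hJ Δ hΔ0 ?_
      intro x hx
      rcases Finset.mem_union.1 (hΔv hx) with h1 | h1
      · obtain ⟨b, -, rfl⟩ := Finset.mem_image.1 h1
        exact hz b
      · exact hGJ h1
    have hΔi := io_ne φ e hΔe
    have hjE : (j : E) ≠ 0 := Nat.cast_ne_zero.2 hj.ne'
    have hjA : (j : MvPolynomial ℕ E) = C (j : E) := by
      rw [map_natCast]
    have hj0 : (j : MvPolynomial ℕ E) ≠ 0 := by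
      rw [hjA]
      intro h0
      exact hjE ((C_eq_zero (σ := ℕ)).1 h0)
    have hje : e (φ (j : MvPolynomial ℕ E)) ≠ 0 := by
      refine hJ _ hj0 ?_
      rw [hjA, vars_C]
      exact Finset.empty_subset _
    have hjF : (j : FF E) ≠ 0 := by
      have := io_ne φ e hje
      rw [map_natCast] at this
      exact this
    rw [eul_div der y z n Δ hΔi hn j hjF a0 b0 (io_ne φ e hb)]
    have hzJ : ∀ b, z b ∈ J := fun b => hJJ (hz b)
    refine fl_of φ e I (s := s ^ 2) ?_ ?_ ?_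
    · rw [map_mul, map_mul, map_pow, map_mul, map_mul, map_pow]
      exact mul_ne_zero (mul_ne_zero hje hΔe) (pow_ne_zero _ hb)
    · rw [map_pow]
      exact pow_ne_zero _ hs
    · have hδ : ∀ a a', dl ζ J (n a) z (Ph ζ J (y a')) = if a = a' then φ Δ else 0 := by
        intro a a'
        have h1 := hd1 a a'
        rw [del_ap] at h1
        have h2 : io E (∑ b, n a b * pderiv (z b) (y a')) = io E (if a = a' then Δ else 0) := by
          rw [map_sum]
          have h3 : ∀ b, io E (n a b * pderiv (z b) (y a')) =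
              io E Δ * ((VV y z)⁻¹ a b * dd (z b) (io E (y a'))) := by
            intro b
            rw [map_mul, hn, (der E).1]
            field_simp
          rw [Finset.sum_congr rfl fun b _ => h3 b, ← Finset.mul_sum, h1]
          by_cases haa : a = a'
          · rw [if_pos haa, if_pos haa, mul_one]
          · rw [if_neg haa, if_neg haa, mul_zero, map_zero]
        have h4 := io_injective h2
        rw [dl_ap]
        have h5 : ∑ b, Ph ζ J (n a b) * pderiv (z b) (Ph ζ J (y a')) =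
            Ph ζ J (∑ b, n a b * pderiv (z b) (y a')) := by
          rw [map_sum]
          refine Finset.sum_congr rfl fun b _ => ?_
          rw [map_mul, ph_pderiv ζ J (z b) (hzJ b)]
        rw [h5, h4]
        by_cases haa : a = a'
        · rw [if_pos haa, if_pos haa]
          rfl
        · rw [if_neg haa, if_neg haa, map_zero]
      have hk := key eulS (fun a => Ph ζ J (y a)) (φ Δ) (fun a => dl ζ J (n a) z) hδ s (φ a0)
        (φ b0) j h
      have e1 : φ ((j : MvPolynomial ℕ E) * Δ * b0 * a0 - b0 * NN y n z a0 + a0 * NN y n z b0) =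
          (j : MvPolynomial ℕ D) * φ Δ * φ b0 * φ a0 -
            φ b0 * Nf (fun a => Ph ζ J (y a)) (fun a => dl ζ J (n a) z) (φ a0) +
            φ a0 * Nf (fun a => Ph ζ J (y a)) (fun a => dl ζ J (n a) z) (φ b0) := by
        rw [map_add, map_sub, map_mul, map_mul, map_mul, map_mul, map_mul, map_natCast,
          hφ (NN y n z a0), hφ (NN y n z b0), ph_NN ζ J y n z hzJ, ph_NN ζ J y n z hzJ]
        rfl
      rw [e1]
      exact hk
  · intro W hW0 hW j
    obtain ⟨a, b, hWab, hb, ha⟩ := hW0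
    obtain ⟨a', b', rfl, hb', s, hs, h⟩ := hW
    have hbi : io E b ≠ 0 := by
      intro h0
      apply hb
      have : b = 0 := by
        apply io_injective
        rw [h0, map_zero]
      rw [this, map_zero]
    have hb'i := io_ne φ e hb'
    have h1 : a' * b = a * b' := by
      apply io_injective
      rw [map_mul, map_mul]
      exact (div_eq_div_iff hb'i hbi).1 hWab
    have h2 : φ a' * φ b = 0 := by
      rw [← map_mul, h1, map_mul, hφ a, ha, zero_mul]
    have h3 : φ a' = 0 := (mul_eq_zero.1 h2).resolve_right hb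
    refine fl_of φ e I (s := 1) hb' ?_ ?_
    · rw [map_one]
      exact one_ne_zero
    · rw [h3, mul_zero]
      exact Ideal.zero_mem _

end Pool.Agent.PW.H19
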